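import Pool.Agent.FM.D3

/-!
# MP_533548_gt: recognition and homotopy type of closed 4-manifolds with a fixed fundamental group

Beside the frozen statement `S13173`.
-/

set_option autoImplicit false

open Set

namespace Pool.Agent.Results.MP_533548_gt.RecognitionFixedGroup

/-- The geometric realisation of the simplicial complex whose simplices are the finite sets contained in one of the sets of the list `L`
(points of the space `ℕ → ℝ` with the product topology, given by their barycentric coordinates). -/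
def geom (L : List (List ℕ)) : Set (ℕ → ℝ) :=
  {x | ∃ s ∈ L, (∀ i, 0 ≤ x i) ∧ (∀ i, i ∉ s → x i = 0) ∧ ∑ i ∈ s.toFinset, x i = 1}

/-- `L` is a triangulation of a closed connected topological 4-manifold whose fundamental group is isomorphic to the group presented by the
finite set of relators `rels`. -/
def IsManifold {n : ℕ} (rels : Finset (FreeGroup (Fin n))) (L : List (List ℕ)) : Prop :=
  ConnectedSpace (geom L) ∧
  (∀ x : geom L, ∃ U : Set (geom L), IsOpen U ∧ x ∈ U ∧ Nonempty (U ≃ₜ EuclideanSpace ℝ (Fin 4))) ∧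
  ∃ x : geom L, Nonempty (FundamentalGroup (geom L) x ≃* PresentedGroup (rels : Set (FreeGroup (Fin n))))

/-- The space `Y` is covered by four open sets such that any two paths with the same endpoints which stay in one of these sets are
homotopic in `Y` relative to the endpoints. -/
def HasCover (Y : Type) [TopologicalSpace Y] : Prop :=
  ∃ U : Fin 4 → Set Y, (∀ k, IsOpen (U k)) ∧ (⋃ k, U k) = univ ∧
    ∀ k (x y : Y) (γ γ' : Path x y), (∀ t, γ t ∈ U k) → (∀ t, γ' t ∈ U k) → γ.Homotopic γ'

theorem hasCover_of_homotopyEquiv {X Y : Type} [TopologicalSpace X] [TopologicalSpace Y]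
    (h : ContinuousMap.HomotopyEquiv X Y) (hY : HasCover Y) : HasCover X := by
  obtain ⟨U, hU, hcov, hp⟩ := hY
  refine ⟨fun k => h.toFun ⁻¹' U k, fun k => (hU k).preimage h.toFun.continuous, ?_, ?_⟩
  · rw [← preimage_iUnion, hcov, preimage_univ]
  · intro k x y γ γ' hγ hγ'
    have h1 : (γ.map h.toFun.continuous).Homotopic (γ'.map h.toFun.continuous) :=
      hp k _ _ _ _ hγ hγ'
    let E := FundamentalGroupoidFunctor.equivOfHomotopyEquiv h
    have hinj := E.functor.map_injective (X := ⟨x⟩) (Y := ⟨y⟩)
    have h2 := @hinj (⟦γ⟧) (⟦γ'⟧) (Quotient.sound h1)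
    exact Quotient.exact h2

theorem undecidable_of {n : ℕ} (rels : Finset (FreeGroup (Fin n))) (F : ℕ → List (List ℕ)) (p : ℕ → Prop)
    (hF : Computable F) (hp : ¬ ComputablePred p) (hgood : ∀ j, IsManifold rels (F j))
    (P Q : List (List ℕ) → Prop) (hP : ∀ j, p j → P (F j)) (hQ : ∀ j, ¬ p j → Q (F j)) :
    ¬ ∃ f : List (List ℕ) →. Bool, Partrec f ∧
      ∀ L, IsManifold rels L → (P L → true ∈ f L) ∧ (Q L → false ∈ f L) := by
  classical
  rintro ⟨f, hf, H⟩
  apply hp
  have hpart : Partrec fun j => f (F j) := hf.comp hF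
  refine ⟨fun j => Classical.dec _, ?_⟩
  refine Partrec.of_eq_tot hpart ?_
  intro j
  by_cases h1 : p j
  · have := (H (F j) (hgood j)).1 (hP j h1)
    simpa [h1] using this
  · have := (H (F j) (hgood j)).2 (hQ j h1)
    simpa [h1] using this

/-- There are a finitely presented group `π` and a triangulated closed connected 4-manifold `M₀` with `π₁(M₀) ≅ π` such that, on
triangulations `L` of closed connected 4-manifolds with fundamental group isomorphic to `π`:

(1) no algorithm separates those homeomorphic to `M₀` from those not homotopy equivalent to `M₀`;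

(2) no algorithm decides whether `|L|` has a cover by four open sets in each of which paths are determined up to homotopy in `|L|` by their
endpoints. -/
theorem result : ∃ (n : ℕ) (rels : Finset (FreeGroup (Fin n))) (L₀ : List (List ℕ)), IsManifold rels L₀ ∧
    (¬ ∃ f : List (List ℕ) →. Bool, Partrec f ∧ ∀ L, IsManifold rels L →
      (Nonempty (geom L ≃ₜ geom L₀) → true ∈ f L) ∧
      (IsEmpty (ContinuousMap.HomotopyEquiv (geom L) (geom L₀)) → false ∈ f L)) ∧
    ¬ ∃ f : List (List ℕ) →. Bool, Partrec f ∧ ∀ L, IsManifold rels L →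
      (HasCover (geom L) → true ∈ f L) ∧ (¬ HasCover (geom L) → false ∈ f L) := by
  obtain ⟨k, R, w, hw, hund⟩ := FM.undecidable_wp
  obtain ⟨N, rels, x0, x1, z, γ, hrel, huniv, hgen, hcup⟩ := FM.exists_pi k R
  have hU : FM.Univ k R _ x0 x1 z γ := ⟨hrel, huniv, hgen⟩
  have hF : Computable fun j => FM.LP k R (w j) :=
    (FM.computable_trW (by omega) (FM.piJ1 k) (FM.piJ2 k) (FM.piWords k R)).comp
      ((FM.computable_mainWord k).comp hw)
  have hgood : ∀ j, IsManifold rels (FM.LP k R (w j)) := fun j => by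
    obtain ⟨a, b, c⟩ := FM.good_word hU (w j)
    exact ⟨a, b, c⟩
  have hgood0 : IsManifold rels (FM.LP k R []) := by
    obtain ⟨a, b, c⟩ := FM.good_word hU []
    exact ⟨a, b, c⟩
  have hcov : ∀ v, FM.LS4 (FM.X (FM.KP k R v)) ↔ HasCover (geom (FM.LP k R v)) := by
    intro v
    obtain ⟨e⟩ := FM.LP_homeo (k := k) (R := R) v
    constructor
    · intro h
      exact h.homeo e
    · intro h
      exact FM.LS4.homeo e.symm h
  have hcov0 : HasCover (geom (FM.LP k R [])) := by
    rw [← hcov]
    obtain ⟨-, -, -, h2⟩ := FM.data_word hU []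
    exact h2 (by simp [FM.cOf, FM.evalW])
  have hpos : ∀ j, FM.Triv R (w j) → Nonempty (geom (FM.LP k R (w j)) ≃ₜ geom (FM.LP k R [])) := by
    intro j hj
    obtain ⟨e⟩ := FM.LP_homeo (k := k) (R := R) (w j)
    obtain ⟨e'⟩ := FM.LP_homeo (k := k) (R := R) []
    obtain ⟨f⟩ := FM.homeo_word (k := k) hj
    exact ⟨(e.trans f).trans e'.symm⟩
  have hneg : ∀ j, ¬ FM.Triv R (w j) → ¬ HasCover (geom (FM.LP k R (w j))) := by
    intro j hj h
    obtain ⟨-, -, h1, -⟩ := FM.data_word hU (w j)
    exact h1 (hcup _ hj) ((hcov _).2 h)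
  refine ⟨N, rels, FM.LP k R [], hgood0, ?_, ?_⟩
  · exact undecidable_of rels _ (fun j => FM.Triv R (w j)) hF hund hgood
      (fun L => Nonempty (geom L ≃ₜ geom (FM.LP k R [])))
      (fun L => IsEmpty (ContinuousMap.HomotopyEquiv (geom L) (geom (FM.LP k R []))))
      hpos (fun j hj => ⟨fun h => hneg j hj (hasCover_of_homotopyEquiv h hcov0)⟩)
  · refine undecidable_of rels _ (fun j => FM.Triv R (w j)) hF hund hgood
      (fun L => HasCover (geom L)) (fun L => ¬ HasCover (geom L)) (fun j hj => ?_) hneg
    obtain ⟨e⟩ := hpos j hj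
    exact hasCover_of_homotopyEquiv e.toHomotopyEquiv hcov0

end Pool.Agent.Results.MP_533548_gt.RecognitionFixedGroup
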